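import Pool.Agent.Q264.AC.Feas
import Pool.Agent.Q121.SN.TAIL
import Pool.Agent.Q121.SN.TWO
import Pool.Agent.Q162.SN.Poly
import Pool.Agent.Q162.SN.Meas
import Pool.Agent.Q162.SN.Four

/-!
# Project AC (helper264): MP_b1e97f_co, the Schrijver number of the strong square of the acute-angle graph
-/

namespace Pool.Agent.Q264.AC

open Finset Pool.Agent.Q264.SN

/-- The acute-angle graph on the cube: distinct `x, y` are adjacent iff `⟨x, y⟩ > 0`. -/
def acute (n : ℕ) : SimpleGraph (Cube n) where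
  Adj x y := x ≠ y ∧ 0 < dot x y
  symm := ⟨fun x y h => ⟨h.1.symm, by
    have : dot y x = dot x y := by simp only [dot]; exact Finset.sum_congr rfl fun i _ => mul_comm _ _
    rw [this]; exact h.2⟩⟩
  loopless := ⟨fun _ h => h.1 rfl⟩

lemma acute_eq (n : ℕ) : acute n = cubeGraph n 0 := by
  ext x y
  simp [acute, cubeGraph]

lemma base_le {s l : ℝ} (hl0 : 0 ≤ l) (hl1 : l ^ 2 ≤ 1 / 2) (hs : s ≤ -l) :
    Real.cosh l + s * Real.sinh l ≤ Real.exp (-(l ^ 2 / 4)) := by
  have h1 : Real.cosh l ≤ Real.exp (l ^ 2 / 2) := Real.cosh_le_exp_half_sq _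
  have h2 : l ≤ Real.sinh l := Real.self_le_sinh_iff.2 hl0
  have h3 : s * Real.sinh l ≤ -(l ^ 2) := by nlinarith
  have h4 : Real.exp (l ^ 2 / 2) ≤ 1 + 3 / 4 * l ^ 2 := by
    have h5 : 1 - l ^ 2 / 2 ≤ Real.exp (-(l ^ 2 / 2)) := by
      have := Real.add_one_le_exp (-(l ^ 2 / 2)); linarith
    have h6 : Real.exp (l ^ 2 / 2) * Real.exp (-(l ^ 2 / 2)) = 1 := by
      rw [← Real.exp_add]; simp
    have h7 : 0 < Real.exp (l ^ 2 / 2) := Real.exp_pos _
    have h8 : Real.exp (l ^ 2 / 2) * (1 - l ^ 2 / 2) ≤ 1 := by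
      calc Real.exp (l ^ 2 / 2) * (1 - l ^ 2 / 2) ≤ Real.exp (l ^ 2 / 2) * Real.exp (-(l ^ 2 / 2)) :=
            mul_le_mul_of_nonneg_left h5 h7.le
        _ = 1 := h6
    have h9 : (1:ℝ) ≤ (1 + 3 / 4 * l ^ 2) * (1 - l ^ 2 / 2) := by nlinarith [sq_nonneg l]
    have h10 : 0 < 1 - l ^ 2 / 2 := by linarith
    exact le_of_mul_le_mul_right (h8.trans h9) h10
  have h11 : 1 - l ^ 2 / 4 ≤ Real.exp (-(l ^ 2 / 4)) := by
    have := Real.add_one_le_exp (-(l ^ 2 / 4)); linarith
  linarith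

lemma tail0 {N : ℕ} {s l : ℝ} (hl0 : 0 ≤ l) (hl1 : l ^ 2 ≤ 1 / 2) (hs1 : -1 ≤ s) (hs : s ≤ -l) (x : Cube N) :
    ∑ y with -((0:ℝ) * N) < dot x y, ker s x y ≤ Real.exp (-(l ^ 2 * N / 4)) := by
  have hk : ∀ y : Cube N, 0 ≤ ker s x y := fun y =>
    Pool.Agent.Q121.SN.TAIL.ker_nonneg hs1 (by linarith) x y
  calc ∑ y with -((0:ℝ) * N) < dot x y, ker s x y
      ≤ ∑ y with -((0:ℝ) * N) < dot x y, ker s x y * Real.exp (l * dot x y) := by
        refine Finset.sum_le_sum fun y hy => ?_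
        rw [Finset.mem_filter] at hy
        have h1 : 0 < dot x y := by simpa using hy.2
        have h2 : 1 ≤ Real.exp (l * dot x y) := Real.one_le_exp (by positivity)
        exact le_mul_of_one_le_right (hk y) h2
    _ ≤ ∑ y, ker s x y * Real.exp (l * dot x y) := by
        refine Finset.sum_le_sum_of_subset_of_nonneg (Finset.filter_subset _ _) fun y _ _ => ?_
        exact mul_nonneg (hk y) (Real.exp_pos _).le
    _ = (Real.cosh l + s * Real.sinh l) ^ N := Pool.Agent.Q121.SN.TAIL.expand s l x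
    _ ≤ (Real.exp (-(l ^ 2 / 4))) ^ N := by
        refine pow_le_pow_left₀ ?_ (base_le hl0 hl1 hs) N
        have h1 : 0 < Real.cosh l - Real.sinh l := by
          rw [Real.cosh_sub_sinh]; exact Real.exp_pos _
        have h2 : 0 ≤ Real.sinh l := Real.sinh_nonneg_iff.2 hl0
        nlinarith
    _ = Real.exp (-(l ^ 2 * N / 4)) := by
        rw [← Real.exp_nat_mul]; congr 1; ring

/-- The lower bound with the parameter `m` (`n = m ^ 4`). -/
lemma lower0 (L : ℕ) : ∃ A : ℝ, 1 ≤ A ∧ ∀ (N : ℕ) (m : ℝ), 0 < N → (N : ℝ) = m ^ 4 → 3 ≤ m → 2 * A ≤ m →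
    m ^ L ≤ Real.exp (m ^ 2) → ∃ X : Matrix (Cube N × Cube N) (Cube N × Cube N) ℝ,
      Feasible (strongSq (acute N)) X ∧ m ^ L / (4 * (2 * A) ^ L) ≤ ∑ u, ∑ v, X u v := by
  have hMEAS : S_MEAS := Pool.Agent.Q162.SN.t_MEAS Pool.Agent.Q162.SN.t_POLY
  obtain ⟨n, w, x, y, hw, hw1, hxy, hmom⟩ := hMEAS L
  set A : ℝ := 1 + ∑ k, (|x k| + |y k|) with hA
  have hS : 0 ≤ ∑ k, (|x k| + |y k|) := Finset.sum_nonneg fun k _ => by positivity
  have hA1 : 1 ≤ A := by rw [hA]; linarith
  have hA0 : 0 < A := by linarith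
  have hxA : ∀ k, |x k| ≤ A ∧ |y k| ≤ A := by
    intro k
    have h1 : |x k| + |y k| ≤ ∑ k, (|x k| + |y k|) :=
      Finset.single_le_sum (f := fun k => |x k| + |y k|) (fun j _ => by positivity)
        (Finset.mem_univ k)
    have h2 := abs_nonneg (x k)
    have h3 := abs_nonneg (y k)
    constructor <;> rw [hA] <;> linarith
  refine ⟨A, hA1, ?_⟩
  intro N m hN hNm hm3 hmA hmL
  have hm0 : 0 < m := by linarith
  set σ : ℝ := 1 / m with hσ
  have hσ0 : 0 < σ := by positivity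
  have hσA : 2 * σ * A ≤ 1 := by
    rw [hσ, mul_one_div, div_mul_eq_mul_div, div_le_one hm0]; exact hmA
  have hσA0 : 0 < 2 * σ * A := by positivity
  have hσ2 : (2 * σ) ^ 2 ≤ 1 / 2 := by
    have h1 : σ ≤ 1 / 3 := by rw [hσ]; exact one_div_le_one_div_of_le (by norm_num) hm3
    nlinarith
  set τ : ℝ := Real.exp (-m ^ 2) with hτ
  have hτ' : Real.exp (-((2 * σ) ^ 2 * N / 4)) = τ := by
    rw [hτ, hNm, hσ]; congr 1; field_simp; ring
  set η : ℝ := (2 * σ * A) ^ L with hη
  have hη0 : 0 < η := by rw [hη]; positivity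
  set M : ℝ := 1 / (2 * η) with hM
  have hM0 : 0 < M := by rw [hM]; positivity
  have hMη : M * η = 1 / 2 := by rw [hM]; field_simp
  have hτ2 : τ ≤ η := by
    have h1 : η = (2 * A) ^ L / m ^ L := by rw [hη, hσ, ← div_pow]; congr 1; field_simp
    have h2 : (1:ℝ) ≤ (2 * A) ^ L := one_le_pow₀ (by linarith)
    have h3 : τ = 1 / Real.exp (m ^ 2) := by rw [hτ, Real.exp_neg, one_div]
    rw [h1, h3]
    calc 1 / Real.exp (m ^ 2) ≤ 1 / m ^ L := one_div_le_one_div_of_le (by positivity) hmL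
      _ ≤ (2 * A) ^ L / m ^ L := by gcongr
  have hτ1 : τ ≤ 1 / 2 := by
    have h1 : 2 ≤ Real.exp (m ^ 2) := by
      have := Real.add_one_le_exp (m ^ 2); nlinarith
    have h3 : τ = 1 / Real.exp (m ^ 2) := by rw [hτ, Real.exp_neg, one_div]
    rw [h3]; exact one_div_le_one_div_of_le (by norm_num) h1
  have hMτ : M * τ ≤ 1 / 2 := by
    rw [← hMη]
    exact mul_le_mul_of_nonneg_left hτ2 hM0.le
  have hs : ∀ k, |2 * σ * x k| ≤ 2 * σ * A ∧ |2 * σ * y k| ≤ 2 * σ * A := by
    intro k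
    have h1 : |2 * σ| = 2 * σ := abs_of_pos (by positivity)
    constructor
    · rw [abs_mul, h1]
      exact mul_le_mul_of_nonneg_left (hxA k).1 (by positivity)
    · rw [abs_mul, h1]
      exact mul_le_mul_of_nonneg_left (hxA k).2 (by positivity)
  rw [acute_eq]
  obtain ⟨X, hX, hXs⟩ := feas0 Pool.Agent.Q162.SN.t_ROW Pool.Agent.Q162.SN.t_FOUR Pool.Agent.Q162.SN.t_ONE
    N 0 M η τ n w (fun k => 2 * σ * x k)
    (fun k => 2 * σ * y k) hN le_rfl hM0.le (by rw [mul_add]; linarith) hw hw1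
    (fun k => ⟨(hs k).1.trans hσA, (hs k).2.trans hσA⟩)
    (by
      intro k
      have h1 := (abs_le.1 ((hs k).1.trans hσA)).1
      have h2 := (abs_le.1 ((hs k).2.trans hσA)).1
      rw [← hτ']
      rcases hxy k with h | h
      · left
        intro z
        exact tail0 (by positivity) hσ2 h1 (by nlinarith) z
      · right
        intro z
        exact tail0 (by positivity) hσ2 h2 (by nlinarith) z)
    (by
      intro i j
      by_cases hij : i < L ∧ j < L
      · have h1 := hmom i j hij.1 hij.2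
        have h2 : ∑ k, w k * ((2 * σ * x k) ^ i * (2 * σ * y k) ^ j) =
            (2 * σ) ^ i * (2 * σ) ^ j * ∑ k, w k * (x k ^ i * y k ^ j) := by
          rw [Finset.mul_sum]
          exact Finset.sum_congr rfl fun k _ => by rw [mul_pow, mul_pow]; ring
        rw [h2]
        have h3 : 0 ≤ (2 * σ) ^ i * (2 * σ) ^ j * ∑ k, w k * (x k ^ i * y k ^ j) := by
          positivity
        linarith
      · have hk : ∀ k, |(2 * σ * x k) ^ i * (2 * σ * y k) ^ j| ≤ η := by
          intro k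
          rw [abs_mul, abs_pow, abs_pow]
          have hx1 : |2 * σ * x k| ≤ 1 := (hs k).1.trans hσA
          have hy1 : |2 * σ * y k| ≤ 1 := (hs k).2.trans hσA
          have hcase : L ≤ i ∨ L ≤ j := by
            by_contra h
            push Not at h
            exact hij h
          rcases hcase with h | h
          · calc |2 * σ * x k| ^ i * |2 * σ * y k| ^ j ≤ (2 * σ * A) ^ i * 1 := by
                  apply mul_le_mul
                  · exact pow_le_pow_left₀ (abs_nonneg _) (hs k).1 i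
                  · exact pow_le_one₀ (abs_nonneg _) hy1
                  · positivity
                  · positivity
              _ ≤ (2 * σ * A) ^ L := by
                  rw [mul_one]
                  exact pow_le_pow_of_le_one hσA0.le hσA h
          · calc |2 * σ * x k| ^ i * |2 * σ * y k| ^ j ≤ 1 * (2 * σ * A) ^ j := by
                  apply mul_le_mul
                  · exact pow_le_one₀ (abs_nonneg _) hx1
                  · exact pow_le_pow_left₀ (abs_nonneg _) (hs k).2 j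
                  · positivity
                  · norm_num
              _ ≤ (2 * σ * A) ^ L := by
                  rw [one_mul]
                  exact pow_le_pow_of_le_one hσA0.le hσA h
        calc -η = ∑ k, w k * (-η) := by rw [← Finset.sum_mul, hw1, one_mul]
          _ ≤ ∑ k, w k * ((2 * σ * x k) ^ i * (2 * σ * y k) ^ j) :=
              Finset.sum_le_sum fun k _ =>
                mul_le_mul_of_nonneg_left (abs_le.1 (hk k)).1 (hw k))
  refine ⟨X, hX, ?_⟩
  have h1 : M / 2 ≤ ∑ u, ∑ v, X u v := by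
    have h2 : M * (1 / 2) ≤ M * (1 - τ) :=
      mul_le_mul_of_nonneg_left (by linarith) hM0.le
    linarith
  refine le_trans (le_of_eq ?_) h1
  have h4 : η = (2 * A) ^ L / m ^ L := by rw [hη, hσ, ← div_pow]; congr 1; field_simp
  rw [hM, h4]
  field_simp
  norm_num

theorem main (C : ℝ) : ∀ᶠ n : ℕ in Filter.atTop, (n : ℝ) ^ C < schrijver (strongSq (acute n)) := by
  obtain ⟨K, hK⟩ := exists_nat_ge C
  set L : ℕ := 4 * K + 1 with hL
  obtain ⟨A, hA1, hA⟩ := lower0 L
  have hA0 : 0 < A := by linarith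
  have ht : Filter.Tendsto (fun n : ℕ => (n : ℝ) ^ (1 / 4 : ℝ)) Filter.atTop Filter.atTop :=
    (tendsto_rpow_atTop (by norm_num)).comp tendsto_natCast_atTop_atTop
  have hexp : ∀ᶠ m : ℝ in Filter.atTop, m ^ L ≤ Real.exp (m ^ 2) := by
    have h1 : ∀ᶠ m : ℝ in Filter.atTop, m ^ L ≤ Real.exp m := by
      have h2 := (Real.isLittleO_pow_exp_atTop (n := L)).bound (show (0:ℝ) < 1 by norm_num)
      filter_upwards [h2, Filter.eventually_ge_atTop 0] with m hm hm0
      rw [Real.norm_of_nonneg (by positivity), Real.norm_of_nonneg (Real.exp_pos _).le, one_mul] at hm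
      exact hm
    filter_upwards [h1, Filter.eventually_ge_atTop 1] with m hm hm1
    exact hm.trans (Real.exp_le_exp.2 (by nlinarith))
  have hev : ∀ᶠ m : ℝ in Filter.atTop, 3 ≤ m ∧ 2 * A ≤ m ∧ m ^ L ≤ Real.exp (m ^ 2) ∧ 4 * (2 * A) ^ L < m := by
    filter_upwards [hexp, Filter.eventually_ge_atTop 3, Filter.eventually_ge_atTop (2 * A),
      Filter.eventually_gt_atTop (4 * (2 * A) ^ L)] with m h1 h2 h3 h4
    exact ⟨h2, h3, h1, h4⟩
  filter_upwards [ht.eventually hev, Filter.eventually_gt_atTop 0] with n hn hn0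
  obtain ⟨h3, h2A, hmL, hmA⟩ := hn
  set m : ℝ := (n : ℝ) ^ (1 / 4 : ℝ) with hm
  have hn0' : (0:ℝ) < n := by exact_mod_cast hn0
  have hnm : (n : ℝ) = m ^ 4 := by
    rw [hm, ← Real.rpow_natCast, ← Real.rpow_mul hn0'.le]; norm_num
  obtain ⟨X, hX, hXs⟩ := hA n m hn0 hnm h3 h2A hmL
  have hm0 : 0 < m := by linarith
  have hn1 : (1:ℝ) ≤ n := by exact_mod_cast hn0
  have h5 : (n : ℝ) ^ C ≤ m ^ (4 * K) := by
    calc (n : ℝ) ^ C ≤ (n : ℝ) ^ (K : ℝ) := Real.rpow_le_rpow_of_exponent_le hn1 hK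
      _ = m ^ (4 * K) := by rw [Real.rpow_natCast, hnm, ← pow_mul]
  have h6 : m ^ (4 * K) < m ^ L / (4 * (2 * A) ^ L) := by
    rw [lt_div_iff₀ (by positivity), hL, pow_succ]
    have : 0 < m ^ (4 * K) := by positivity
    rw [← hL]
    exact mul_lt_mul_of_pos_left hmA this
  have h7 : ∑ u, ∑ v, X u v ≤ schrijver (strongSq (acute n)) := by
    refine le_csSup ⟨_, fun t ht => Pool.Agent.Q121.SN.TWO.t_BDD _ _ t ht⟩ ⟨X, hX, rfl⟩
  linarith

end Pool.Agent.Q264.AC
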